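import Mathlib
import Pool.Agent.W693.GH

set_option autoImplicit false
open Filter Topology MeasureTheory
open scoped ENNReal

/-!
# An equivalent `s`-norm on `L_p[0,1]` for which the Haar system is `1`-greedy
-/

namespace Pool.Agent.Results.MP_877d49_an.HaarOneGreedySNorm

/-- the index set of the Haar system: `none` stands for the constant function `1`, and
`some ⟨n, k⟩`, `0 ≤ k < 2 ^ n`, for the dyadic interval `[k / 2 ^ n, (k + 1) / 2 ^ n)` -/
abbrev Idx : Type := Option (Σ n : ℕ, Fin (2 ^ n))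

/-- the `L_p`-normalised Haar functions: `1` on `[0, 1)` for `none`; for `some ⟨n, k⟩` the function
`2 ^ (n / p)` on `[k / 2 ^ n, (k + 1 / 2) / 2 ^ n)`, `- 2 ^ (n / p)` on
`[(k + 1 / 2) / 2 ^ n, (k + 1) / 2 ^ n)` and `0` elsewhere -/
noncomputable def haarFn (𝕜 : Type) [RCLike 𝕜] (p : ℝ) : Idx → ℝ → 𝕜
  | none => (Set.Ico (0 : ℝ) 1).indicator (fun _ => 1)
  | some ⟨n, k⟩ => fun x => (((2 : ℝ) ^ ((n : ℝ) / p) : ℝ) : 𝕜) *
      ((Set.Ico ((k : ℝ) / 2 ^ n) (((k : ℝ) + 1 / 2) / 2 ^ n)).indicator (fun _ => 1) x -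
        (Set.Ico (((k : ℝ) + 1 / 2) / 2 ^ n) (((k : ℝ) + 1) / 2 ^ n)).indicator (fun _ => 1) x)

open Pool.Agent.W693.G

theorem haarFn_ae (𝕜 : Type) [RCLike 𝕜] (p : ℝ) (i : Idx) :
    (fun x => ha 𝕜 p i (lev i) (cell (lev i) x)) =ᵐ[volume.restrict (Set.Icc (0 : ℝ) 1)]
      haarFn 𝕜 p i := by
  have hm : volume.restrict (Set.Icc (0 : ℝ) 1) = volume.restrict (Set.Ico (0 : ℝ) 1) := mu_eq
  rw [hm]
  filter_upwards [ae_restrict_mem measurableSet_Ico] with x hx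
  rcases i with _ | ⟨n, k⟩
  · simp only [haarFn, ha, lev, arr_zero, emb, wt]
    rw [Set.indicator_of_mem hx]
    simp
  · have hk : k.1 < 2 ^ n := k.2
    have h2 : (0 : ℝ) < 2 ^ n := by positivity
    have hw : ((2 : ℝ) ^ n) ^ (1 / p) = (2 : ℝ) ^ ((n : ℝ) / p) := by
      rw [← Real.rpow_natCast, ← Real.rpow_mul (by norm_num)]
      congr 1; ring
    have hz : ∀ j, arr (Pi.single (some (n, k.1)) (((2 : ℝ) ^ ((n : ℝ) / p) : ℝ) : 𝕜) : Ix → 𝕜) n j
        = 0 := by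
      intro j
      rw [arr_congr _ (fun _ => 0) n, arr_zero_fun]
      · exact Pi.single_eq_of_ne (by simp) _
      · intro m l hml
        apply Pi.single_eq_of_ne
        intro h
        simp only [Option.some.injEq, Prod.mk.injEq] at h
        omega
    have hc := cell_preimage (n + 1) (2 * k.1) (by rw [pow_succ]; omega)
    have hc' := cell_preimage (n + 1) (2 * k.1 + 1) (by rw [pow_succ]; omega)
    have e1 : ((2 * k.1 : ℕ) : ℝ) / 2 ^ (n + 1) = (k : ℝ) / 2 ^ n := by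
      push_cast; rw [pow_succ]; field_simp
    have e2 : (((2 * k.1 : ℕ) : ℝ) + 1) / 2 ^ (n + 1) = ((k : ℝ) + 1 / 2) / 2 ^ n := by
      push_cast; rw [pow_succ]; field_simp
    have e3 : ((2 * k.1 + 1 : ℕ) : ℝ) / 2 ^ (n + 1) = ((k : ℝ) + 1 / 2) / 2 ^ n := by
      push_cast; rw [pow_succ]; field_simp
    have e4 : (((2 * k.1 + 1 : ℕ) : ℝ) + 1) / 2 ^ (n + 1) = ((k : ℝ) + 1) / 2 ^ n := by
      push_cast; rw [pow_succ]; field_simp; ring
    rw [e1, e2] at hc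
    rw [e3, e4] at hc'
    have m1 : x ∈ Set.Ico ((k : ℝ) / 2 ^ n) (((k : ℝ) + 1 / 2) / 2 ^ n) ↔
        cell (n + 1) x = 2 * k.1 := by
      rw [← hc]; simp only [Set.mem_inter_iff, Set.mem_preimage, Set.mem_singleton_iff, hx, and_true]
    have m2 : x ∈ Set.Ico (((k : ℝ) + 1 / 2) / 2 ^ n) (((k : ℝ) + 1) / 2 ^ n) ↔
        cell (n + 1) x = 2 * k.1 + 1 := by
      rw [← hc']; simp only [Set.mem_inter_iff, Set.mem_preimage, Set.mem_singleton_iff, hx, and_true]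
    simp only [haarFn, ha, lev, emb, wt, hw]
    rw [arr, hz]
    simp only [Set.indicator_apply, m1, m2]
    set j := cell (n + 1) x with hj
    by_cases hjk : j / 2 = k.1
    · rw [hjk, Pi.single_eq_same]
      by_cases hpar : j % 2 = 0
      · have : j = 2 * k.1 := by omega
        rw [if_pos hpar, if_pos this, if_neg (by omega)]
        simp
      · have : j = 2 * k.1 + 1 := by omega
        rw [if_neg hpar, if_neg (by omega), if_pos this]
        simp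
    · rw [if_neg (c := j = 2 * k.1) (by omega), if_neg (c := j = 2 * k.1 + 1) (by omega)]
      have : (Pi.single (some (n, k.1)) (((2 : ℝ) ^ ((n : ℝ) / p) : ℝ) : 𝕜) : Ix → 𝕜)
          (some (n, j / 2)) = 0 := by
        apply Pi.single_eq_of_ne
        intro h
        simp only [Option.some.injEq, Prod.mk.injEq, true_and] at h
        exact hjk h
      rw [this]
      simp

theorem memLp_haarFn (𝕜 : Type) [RCLike 𝕜] (p : ℝ≥0∞) (i : Idx) :
    MemLp (haarFn 𝕜 p.toReal i) p (volume.restrict (Set.Icc (0 : ℝ) 1)) :=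
  (memLp_congr_ae (haarFn_ae 𝕜 p.toReal i)).1 (memLp_step p (lev i) _)

/-- the Haar functions as elements of `L_p[0,1]` -/
noncomputable def haar (𝕜 : Type) [RCLike 𝕜] (p : ℝ≥0∞) (i : Idx) :
    Lp 𝕜 p (volume.restrict (Set.Icc (0 : ℝ) 1)) :=
  (memLp_haarFn 𝕜 p i).toLp _

theorem haar_eq (𝕜 : Type) [RCLike 𝕜] (p : ℝ≥0∞) : haar 𝕜 p = hv 𝕜 p := by
  funext i
  unfold haar hv V
  exact (MemLp.toLp_congr _ _ (haarFn_ae 𝕜 p.toReal i)).symm

/-- For `1 < p < ∞`, every `f` in `L_p[0,1]` (real or complex scalars) has a unique Haar expansion,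
and there are `0 < s < 1` and an equivalent `s`-norm `M` on `L_p[0,1]` for which the Haar system is
`1`-greedy. -/
theorem result (𝕜 : Type) [RCLike 𝕜] (p : ℝ≥0∞) [Fact (1 ≤ p)] (hp1 : 1 < p) (hp2 : p ≠ ∞) :
    (∀ f : Lp 𝕜 p (volume.restrict (Set.Icc (0 : ℝ) 1)),
      ∃! a : Idx → 𝕜, HasSum (fun i => a i • haar 𝕜 p i) f) ∧
    ∃ (s : ℝ) (M : Lp 𝕜 p (volume.restrict (Set.Icc (0 : ℝ) 1)) → ℝ), 0 < s ∧ s < 1 ∧
      (∀ f, 0 ≤ M f) ∧ (∀ f, M f = 0 ↔ f = 0) ∧ (∀ (c : 𝕜) f, M (c • f) = ‖c‖ * M f) ∧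
      (∀ f g, M (f + g) ^ s ≤ M f ^ s + M g ^ s) ∧
      (∃ c C : ℝ, 0 < c ∧ ∀ f, c * ‖f‖ ≤ M f ∧ M f ≤ C * ‖f‖) ∧
      ∀ (f : Lp 𝕜 p (volume.restrict (Set.Icc (0 : ℝ) 1))) (a : Idx → 𝕜),
        HasSum (fun i => a i • haar 𝕜 p i) f →
        ∀ A : Finset Idx, (∀ i ∈ A, ∀ j, j ∉ A → ‖a j‖ ≤ ‖a i‖) →
        ∀ (B : Finset Idx) (b : Idx → 𝕜), B.card ≤ A.card →
          M (f - ∑ i ∈ A, a i • haar 𝕜 p i) ≤ M (f - ∑ i ∈ B, b i • haar 𝕜 p i) := by
  have hp : 1 < p.toReal := by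
    rw [← ENNReal.toReal_one]
    exact (ENNReal.toReal_lt_toReal ENNReal.one_ne_top hp2).2 hp1
  have hq : Fact (1 ≤ ENNReal.conjExponent p) := ⟨by
    unfold ENNReal.conjExponent
    exact le_self_add⟩
  rw [haar_eq]
  have hsum := hasSum_haar (𝕜 := 𝕜) p (ENNReal.conjExponent p) hp
  have hcoef := fc_of_hasSum (𝕜 := 𝕜) p (ENNReal.conjExponent p) hp
  refine ⟨fun f => ⟨fun i => fc p (ENNReal.conjExponent p) i f, hsum f, fun a ha => ?_⟩, ?_⟩
  · funext i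
    exact (hcoef f a ha i).symm
  obtain ⟨u, hu1, hu2⟩ := haar_UD (𝕜 := 𝕜) p (ENNReal.conjExponent p) hp
  obtain ⟨s, M, h1, h2, h3, h4, h5, ⟨c, C, h6, h7⟩, h8⟩ := u.exists_snorm
  refine ⟨s, M, h1, h2, fun f => ?_, h3, h4, h5, ⟨c, C, h6, h7⟩, fun f a ha A hA B b hAB => ?_⟩
  · exact (mul_nonneg h6.le (norm_nonneg _)).trans (h7 f).1
  · have ha' : ∀ i, u.f i f = a i := fun i => by rw [hu2]; exact hcoef f a ha i
    have := h8 f A B b (fun i hi j hj => by rw [ha', ha']; exact hA i hi j hj) hAB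
    rw [hu1] at this
    simp_rw [ha'] at this
    exact this

end Pool.Agent.Results.MP_877d49_an.HaarOneGreedySNorm
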